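import Pool.Agent.H72.Tri.Final

/-!
# Trisections induced by knots in the same homotopy class need not be diffeomorphic

The definitions used in the statement are in `Pool.Agent.H72.Tri.Defs`.

Sketch of the proof. Let `F` be the central surface of an induced decomposition and let `G_i` be the
group of homotopy classes of maps `F → S¹` which extend over both handlebodies in the boundary of
`X_i`. Each `G_i` is infinite cyclic. If the projection `S¹ × S² → S¹`, restricted to `H_β`, crosses
the discs of `β₁` and `β₂` algebraically `n` and `m` times, then modulo `n`-th powers of maps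
`F → S¹` the generators of `G_0` and `G_1` are both the `m`-th power of the generator of `G_2`,
which has order `n`. So `± m` modulo `n` is an invariant of the decomposition, whereas the homotopy
class of the knot is `± n`. For every coprime pair `(n, m)` there is a genus-two splitting of
`S¹ × S²` with these numbers: `H_β` is a once-punctured torus times an interval, and the cut system
is changed by Dehn twists of the torus.

In each of these splittings, for every integral framing, the placement of the knot induces a
decomposition: the space is glued from the three handlebodies, which are presented by explicit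
planar presentations of the surface `F`.
-/

open Set Topology Metric Pool.Agent.H72.Tri

namespace Pool.Agent.Results.MP_a0bf10_gt.InducedNotHomeo

/-- There are a space `Y` homeomorphic to `S¹ × S²` and genus-two splittings `P n m` of `Y` such
that, for coprime `n ≠ 0` and `m`,
* there is a placement `K` of a knot in `P n m` such that every twist `K₁` of it (so that all
  integral framings occur) has the homotopy class `n` and induces a decomposition of some
  Hausdorff space, and all placements in `P n m` have the class `± n`;
* if `m' ≠ ± m` modulo `n` is also prime to `n`, then no decomposition induced by a placement in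
  `P n m` is homeomorphic to a decomposition induced by a placement in `P n m'`. -/
theorem result :
    ∃ (Y : Type) (_ : TopologicalSpace Y) (Ψ : Y ≃ₜ S1S2) (P : ℤ → ℤ → Splitting Y),
      (∀ n m : ℤ, n ≠ 0 → IsCoprime n m →
        (∃ K : Placement (P n m), ∀ k : ℤ, ∃ K₁ : Placement (P n m), K.IsTwist K₁ k ∧
          K₁.HasClass Ψ n ∧ ∃ (X : Type) (_ : TopologicalSpace X) (_ : T2Space X)
            (Xi : Fin 3 → Set X), (⋃ i, Xi i) = univ ∧ K₁.Induces Xi) ∧
        (∀ K : Placement (P n m), K.HasClass Ψ n ∨ K.HasClass Ψ (-n))) ∧
      (∀ n m m' : ℤ, n ≠ 0 → IsCoprime n m → IsCoprime n m' → ¬ n ∣ m - m' → ¬ n ∣ m + m' →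
        ∀ (K : Placement (P n m)) (K' : Placement (P n m'))
          (X X' : Type) [TopologicalSpace X] [T2Space X] [TopologicalSpace X'] [T2Space X']
          (Xi : Fin 3 → Set X) (Xi' : Fin 3 → Set X'),
          K.Induces Xi → K'.Induces Xi' → ¬ Equivalent Xi Xi') := by
  obtain ⟨Ψ, hΨ⟩ := exists_homeo
  have hc : ∀ {P : Splitting Y0} (K : Placement P) (n : ℤ),
      Placement.HasClass (show Y0 ≃ₜ S1S2 from Ψ) K n ↔ HasDeg (fun z => (K.κ z).1) n := by
    intro P K n
    have e : (fun z => (Ψ (K.κ z)).1) = fun z => (K.κ z).1 := funext fun z => hΨ _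
    rw [← e]
    rfl
  refine ⟨Y0, inferInstance, (show Y0 ≃ₜ S1S2 from Ψ), fun n m => (twOf n m).P, ?_, ?_⟩
  · intro n m _ h
    obtain ⟨-, hfix, hdeg⟩ := twOf_spec h
    refine ⟨⟨(twOf n m).K1, fun k => ⟨(twOf n m).K1.tw k, (twOf n m).K1.isTwist_tw k,
      (hc _ _).2 (hdeg k), ?_⟩⟩, fun K => (deg_placement h K).imp (hc _ _).2 (hc _ _).2⟩
    obtain ⟨X, i1, i2, Xi, h1, h2⟩ := Twist.hasInd_K1 hfix k
    exact ⟨X, i1, i2, Xi, h2, h1⟩
  · intro n m m' hn h h' h1 h2 K K' X X' _ _ _ _ Xi Xi' hX hX'
    exact not_homeo_of hn h h' h1 h2 K K' hX hX'

end Pool.Agent.Results.MP_a0bf10_gt.InducedNotHomeo
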